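import Pool.Agent.Helper74.CA.Stmts

/-!
# COMM: the lower central series
-/

set_option autoImplicit false

namespace Pool.Agent.Helper74.CA

open Subgroup

open scoped commutatorElement

section

variable {K : Type} [Group K]

theorem comm_three (H₁ H₂ H₃ N : Subgroup K) [N.Normal] (h1 : ⁅⁅H₂, H₃⁆, H₁⁆ ≤ N)
    (h2 : ⁅⁅H₃, H₁⁆, H₂⁆ ≤ N) : ⁅⁅H₁, H₂⁆, H₃⁆ ≤ N := by
  have hk : N = (QuotientGroup.mk' N).ker := (QuotientGroup.ker_mk' N).symm
  rw [hk, ← Subgroup.map_eq_bot_iff, Subgroup.map_commutator, Subgroup.map_commutator] at h1 h2 ⊢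
  exact Subgroup.commutator_commutator_eq_bot_of_rotate h1 h2

theorem comm_lcs : ∀ n m : ℕ, ⁅(⊤ : Subgroup K).lowerCentralSeries m,
    (⊤ : Subgroup K).lowerCentralSeries n⁆ ≤ (⊤ : Subgroup K).lowerCentralSeries (m + n + 1) := by
  intro n
  induction n with
  | zero =>
    intro m
    rw [Subgroup.lowerCentralSeries_zero, add_zero, Subgroup.lowerCentralSeries_succ]
  | succ n ih =>
    intro m
    rw [Subgroup.lowerCentralSeries_succ (⊤ : Subgroup K) n, Subgroup.commutator_comm]
    refine comm_three _ _ _ _ ?_ ?_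
    · rw [Subgroup.commutator_comm ⊤, ← Subgroup.lowerCentralSeries_succ]
      have h := ih (m + 1)
      have e : m + 1 + n + 1 = m + (n + 1) + 1 := by ring
      rw [e] at h
      exact h
    · have h := Subgroup.commutator_mono (ih m) (le_refl (⊤ : Subgroup K))
      rw [← Subgroup.lowerCentralSeries_succ] at h
      have e : m + n + 1 + 1 = m + (n + 1) + 1 := by ring
      rw [e] at h
      exact h

theorem comm_normal (i : ℕ) : (gm K i).Normal := by
  unfold gm
  infer_instance

theorem comm_le (i j : ℕ) (h : i ≤ j) : gm K j ≤ gm K i :=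
  Subgroup.lowerCentralSeries_antitone _ (Nat.sub_le_sub_right h 1)

theorem comm_gm (i j : ℕ) : ⁅gm K i, gm K j⁆ ≤ gm K (i + j) := by
  haveI := comm_normal (K := K)
  rcases Nat.eq_zero_or_pos i with hi | hi
  · rw [hi, zero_add]
    haveI := comm_normal (K := K) j
    exact Subgroup.commutator_le_right _ _
  · rcases Nat.eq_zero_or_pos j with hj | hj
    · rw [hj, add_zero]
      haveI := comm_normal (K := K) i
      exact Subgroup.commutator_le_left _ _
    · unfold gm
      have h := comm_lcs (K := K) (j - 1) (i - 1)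
      have e : i - 1 + (j - 1) + 1 = i + j - 1 := by omega
      rw [e] at h
      exact h

theorem comm_map (f : K →* K) : ∀ n : ℕ, ((⊤ : Subgroup K).lowerCentralSeries n).map f ≤
    (⊤ : Subgroup K).lowerCentralSeries n := by
  intro n
  induction n with
  | zero => exact le_top
  | succ n ih =>
    rw [Subgroup.lowerCentralSeries_succ, Subgroup.map_commutator]
    exact Subgroup.commutator_mono ih le_top

theorem comm_map' (f : K →* K) (i : ℕ) (x : K) (hx : x ∈ gm K i) : f x ∈ gm K i :=
  comm_map f (i - 1) (Subgroup.mem_map_of_mem f hx)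

end

theorem st_COMM : ST_COMM := by
  intro K _
  refine ⟨comm_gm, ?_, rfl, rfl, comm_le, comm_normal, comm_map', ?_⟩
  · intro i hi
    obtain ⟨j, rfl⟩ : ∃ j, i = j + 1 := ⟨i - 1, by omega⟩
    rfl
  · intro hnil i hi h1
    obtain ⟨m, hm⟩ := (Subgroup.nilpotent_iff_lowerCentralSeries).1 hnil
    obtain ⟨j, rfl⟩ : ∃ j, i = j + 1 := ⟨i - 1, by omega⟩
    have h2 : (⊤ : Subgroup K).lowerCentralSeries j ≤ (⊤ : Subgroup K).lowerCentralSeries (j + 1) := hi
    have h3 : ∀ t, (⊤ : Subgroup K).lowerCentralSeries j ≤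
        (⊤ : Subgroup K).lowerCentralSeries (j + t) := by
      intro t
      induction t with
      | zero => exact le_rfl
      | succ t ih =>
        refine h2.trans ?_
        rw [Subgroup.lowerCentralSeries_succ, ← add_assoc, Subgroup.lowerCentralSeries_succ]
        exact Subgroup.commutator_mono ih le_rfl
    rw [eq_bot_iff, ← hm]
    exact (h3 m).trans (Subgroup.lowerCentralSeries_antitone _ (Nat.le_add_left m j))

end Pool.Agent.Helper74.CA
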