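import Pool.Agent.Helper46.CA.COMM

/-!
# GR: the associated graded Lie algebra of the lower central series, characteristic three
-/

set_option autoImplicit false

namespace Pool.Agent.Helper74.CA

open Subgroup

open scoped commutatorElement

/-- the relations -/
noncomputable def grR (K : Type) [Group K] : Submodule (ZMod 3) ((ℕ × K) →₀ ZMod 3) :=
  Submodule.span (ZMod 3)
    ({v | ∃ i x y, x ∈ gm K i ∧ y ∈ gm K i ∧ v = Finsupp.single (i, x * y) 1 -
        Finsupp.single (i, x) 1 - Finsupp.single (i, y) 1} ∪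
      ({v | ∃ i x, x ∈ gm K (i + 1) ∧ v = Finsupp.single (i, x) 1} ∪
        {v | ∃ i x, x ∉ gm K i ∧ v = Finsupp.single (i, x) 1}))

/-- the Lie algebra -/
abbrev grL (K : Type) [Group K] : Type := ((ℕ × K) →₀ ZMod 3) ⧸ grR K

section

variable {K : Type} [Group K]

/-- the classes -/
noncomputable def grc (i : ℕ) (x : K) : grL K := (grR K).mkQ (Finsupp.single (i, x) 1)

theorem grc_mul (i : ℕ) (x y : K) (hx : x ∈ gm K i) (hy : y ∈ gm K i) :
    grc i (x * y) = grc i x + grc i y := by
  unfold grc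
  rw [← map_add, ← sub_eq_zero, ← map_sub, Submodule.mkQ_apply, Submodule.Quotient.mk_eq_zero]
  apply Submodule.subset_span
  refine Or.inl ⟨i, x, y, hx, hy, ?_⟩
  abel

theorem grc_zero (i : ℕ) (x : K) (hx : x ∈ gm K (i + 1)) : grc i x = 0 := by
  unfold grc
  rw [Submodule.mkQ_apply, Submodule.Quotient.mk_eq_zero]
  exact Submodule.subset_span (Or.inr (Or.inl ⟨i, x, hx, rfl⟩))

theorem grc_not (i : ℕ) (x : K) (hx : x ∉ gm K i) : grc i x = 0 := by
  unfold grc
  rw [Submodule.mkQ_apply, Submodule.Quotient.mk_eq_zero]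
  exact Submodule.subset_span (Or.inr (Or.inr ⟨i, x, hx, rfl⟩))

theorem gr_ind {P : grL K → Prop} (h0 : P 0) (ha : ∀ u v, P u → P v → P (u + v))
    (hs : ∀ (r : ZMod 3) u, P u → P (r • u)) (hc : ∀ i x, P (grc i x)) (u : grL K) : P u := by
  obtain ⟨f, rfl⟩ := (grR K).mkQ_surjective u
  induction f using Finsupp.induction_linear with
  | zero => rw [map_zero]; exact h0
  | add f g hf hg => rw [map_add]; exact ha _ _ hf hg
  | single a b =>
    have h : (Finsupp.single a b : (ℕ × K) →₀ ZMod 3) = b • Finsupp.single (a.1, a.2) 1 := by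
      rw [Finsupp.smul_single, smul_eq_mul, mul_one]
    rw [h, map_smul]
    exact hs b _ (hc a.1 a.2)

theorem gr_ext {M : Type} [AddCommGroup M] [Module (ZMod 3) M] (f g : grL K →ₗ[ZMod 3] M)
    (h : ∀ i x, f (grc i x) = g (grc i x)) : f = g := by
  apply LinearMap.ext
  intro u
  refine gr_ind (P := fun u => f u = g u) ?_ ?_ ?_ h u
  · rw [map_zero, map_zero]
  · intro u v hu hv
    rw [map_add, map_add, hu, hv]
  · intro r u hu
    rw [map_smul, map_smul, hu]

theorem gr_lift {M : Type} [AddCommGroup M] [Module (ZMod 3) M] (g : ℕ → K → M)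
    (h1 : ∀ i x y, x ∈ gm K i → y ∈ gm K i → g i (x * y) = g i x + g i y)
    (h2 : ∀ i x, x ∈ gm K (i + 1) → g i x = 0) (h3 : ∀ i x, x ∉ gm K i → g i x = 0) :
    ∃ φ : grL K →ₗ[ZMod 3] M, ∀ i x, φ (grc i x) = g i x := by
  let φ0 : ((ℕ × K) →₀ ZMod 3) →ₗ[ZMod 3] M :=
    Finsupp.linearCombination (ZMod 3) (fun p : ℕ × K => g p.1 p.2)
  have h0 : ∀ i x, φ0 (Finsupp.single (i, x) 1) = g i x := by
    intro i x
    rw [Finsupp.linearCombination_single, one_smul]
  have hR : grR K ≤ LinearMap.ker φ0 := by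
    unfold grR
    rw [Submodule.span_le]
    rintro v (⟨i, x, y, hx, hy, rfl⟩ | ⟨i, x, hx, rfl⟩ | ⟨i, x, hx, rfl⟩)
    · rw [SetLike.mem_coe, LinearMap.mem_ker, map_sub, map_sub, h0, h0, h0, h1 i x y hx hy]
      abel
    · rw [SetLike.mem_coe, LinearMap.mem_ker, h0, h2 i x hx]
    · rw [SetLike.mem_coe, LinearMap.mem_ker, h0, h3 i x hx]
  refine ⟨(grR K).liftQ φ0 hR, fun i x => ?_⟩
  unfold grc
  rw [Submodule.mkQ_apply, Submodule.liftQ_apply, h0]

theorem gr_comm_mem (i j : ℕ) (x y : K) (hx : x ∈ gm K i) (hy : y ∈ gm K j) :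
    ⁅x, y⁆ ∈ gm K (i + j) := comm_gm i j (Subgroup.commutator_mem_commutator hx hy)

theorem gr_top (x : K) : x ∈ gm K 1 := by
  change x ∈ (⊤ : Subgroup K).lowerCentralSeries 0
  exact Subgroup.mem_top x

/-- conjugation does not change classes -/
theorem grc_conj (n : ℕ) (g w : K) (hw : w ∈ gm K n) : grc n (g * w * g⁻¹) = grc n w := by
  have h1 : g * w * g⁻¹ = ⁅g, w⁆ * w := by
    rw [commutatorElement_def]
    group
  have h2 : ⁅g, w⁆ ∈ gm K (n + 1) := by
    have := gr_comm_mem 1 n g w (gr_top g) hw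
    rw [add_comm] at this
    exact this
  rw [h1, grc_mul n _ _ (comm_le n (n + 1) (Nat.le_succ n) h2) hw, grc_zero n _ h2, zero_add]

theorem gr_conj_mem (n : ℕ) (g w : K) (hw : w ∈ gm K n) : g * w * g⁻¹ ∈ gm K n :=
  (comm_normal n).conj_mem w hw g

theorem grc_one (n : ℕ) : grc n (1 : K) = 0 := grc_zero n 1 (Subgroup.one_mem _)

theorem grc_inv (n : ℕ) (x : K) (hx : x ∈ gm K n) : grc n x⁻¹ = -grc n x := by
  have h := grc_mul n x x⁻¹ hx ((gm K n).inv_mem hx)
  rw [mul_inv_cancel, grc_one] at h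
  exact (neg_eq_of_add_eq_zero_right h.symm).symm

open scoped Classical in
theorem gr_b (i : ℕ) (x : K) : ∃ φ : grL K →ₗ[ZMod 3] grL K, ∀ j y, φ (grc j y) =
    if x ∈ gm K i ∧ y ∈ gm K j then grc (i + j) ⁅x, y⁆ else 0 := by
  refine gr_lift (fun j y => if x ∈ gm K i ∧ y ∈ gm K j then grc (i + j) ⁅x, y⁆ else 0) ?_ ?_ ?_
  · intro j y y' hy hy'
    by_cases hx : x ∈ gm K i
    · rw [if_pos ⟨hx, (gm K j).mul_mem hy hy'⟩, if_pos ⟨hx, hy⟩, if_pos ⟨hx, hy'⟩,
        commutatorElement_mul_right_eq_mul_conj]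
      have h1 := gr_comm_mem i j x y' hx hy'
      have h2 : ⁅x, y⁆ * y * ⁅x, y'⁆ * y⁻¹ = ⁅x, y⁆ * (y * ⁅x, y'⁆ * y⁻¹) := by group
      rw [h2, grc_mul _ _ _ (gr_comm_mem i j x y hx hy) (gr_conj_mem _ y _ h1), grc_conj _ y _ h1]
    · rw [if_neg fun h => hx h.1, if_neg fun h => hx h.1, if_neg fun h => hx h.1, add_zero]
  · intro j y hy
    by_cases hx : x ∈ gm K i
    · rw [if_pos ⟨hx, comm_le j (j + 1) (Nat.le_succ j) hy⟩]
      exact grc_zero _ _ (gr_comm_mem i (j + 1) x y hx hy)
    · rw [if_neg fun h => hx h.1]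
  · intro j y hy
    rw [if_neg fun h => hy h.2]

/-- bracket with a generator -/
noncomputable def grb (i : ℕ) (x : K) : grL K →ₗ[ZMod 3] grL K := (gr_b i x).choose

open scoped Classical in
theorem grb_apply (i : ℕ) (x : K) (j : ℕ) (y : K) : grb i x (grc j y) =
    if x ∈ gm K i ∧ y ∈ gm K j then grc (i + j) ⁅x, y⁆ else 0 := (gr_b i x).choose_spec j y

theorem gr_B : ∃ B : grL K →ₗ[ZMod 3] (grL K →ₗ[ZMod 3] grL K), ∀ i x, B (grc i x) = grb i x := by
  refine gr_lift (fun i x => grb i x) ?_ ?_ ?_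
  · intro i x x' hx hx'
    apply gr_ext
    intro j y
    rw [LinearMap.add_apply, grb_apply, grb_apply, grb_apply]
    by_cases hy : y ∈ gm K j
    · rw [if_pos ⟨(gm K i).mul_mem hx hx', hy⟩, if_pos ⟨hx, hy⟩, if_pos ⟨hx', hy⟩,
        commutatorElement_mul_left_eq_conj_mul]
      have h1 := gr_comm_mem i j x' y hx' hy
      rw [grc_mul _ _ _ (gr_conj_mem _ x _ h1) (gr_comm_mem i j x y hx hy), grc_conj _ x _ h1,
        add_comm]
    · rw [if_neg fun h => hy h.2, if_neg fun h => hy h.2, if_neg fun h => hy h.2, add_zero]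
  · intro i x hx
    apply gr_ext
    intro j y
    rw [LinearMap.zero_apply, grb_apply]
    by_cases hy : y ∈ gm K j
    · rw [if_pos ⟨comm_le i (i + 1) (Nat.le_succ i) hx, hy⟩]
      have h1 := gr_comm_mem (i + 1) j x y hx hy
      have e : i + 1 + j = i + j + 1 := by ring
      rw [e] at h1
      exact grc_zero _ _ h1
    · rw [if_neg fun h => hy h.2]
  · intro i x hx
    apply gr_ext
    intro j y
    rw [LinearMap.zero_apply, grb_apply, if_neg fun h => hx h.1]

/-- the bracket -/
noncomputable def grB : grL K →ₗ[ZMod 3] (grL K →ₗ[ZMod 3] grL K) := (gr_B (K := K)).choose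

theorem grB_apply (i j : ℕ) (x y : K) (hx : x ∈ gm K i) (hy : y ∈ gm K j) :
    grB (grc i x) (grc j y) = grc (i + j) ⁅x, y⁆ := by
  unfold grB
  rw [(gr_B (K := K)).choose_spec, grb_apply, if_pos ⟨hx, hy⟩]

/-- induction with true elements -/
theorem gr_ind' {P : grL K → Prop} (h0 : P 0) (ha : ∀ u v, P u → P v → P (u + v))
    (hs : ∀ (r : ZMod 3) u, P u → P (r • u)) (hc : ∀ i x, x ∈ gm K i → P (grc i x)) (u : grL K) :
    P u := by
  refine gr_ind h0 ha hs (fun i x => ?_) u
  by_cases hx : x ∈ gm K i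
  · exact hc i x hx
  · rw [grc_not i x hx]
    exact h0

theorem gr_skew (u v : grL K) : grB u v = -grB v u := by
  refine gr_ind' (P := fun u => grB u v = -grB v u) ?_ ?_ ?_ ?_ u
  · rw [map_zero, map_zero, LinearMap.zero_apply, neg_zero]
  · intro u u' hu hu'
    rw [map_add, map_add, LinearMap.add_apply, hu, hu']
    abel
  · intro r u hu
    rw [map_smul, map_smul, LinearMap.smul_apply, hu, smul_neg]
  · intro i x hx
    refine gr_ind' (P := fun v => grB (grc i x) v = -grB v (grc i x)) ?_ ?_ ?_ ?_ v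
    · rw [map_zero, map_zero, LinearMap.zero_apply, neg_zero]
    · intro u u' hu hu'
      rw [map_add, map_add, LinearMap.add_apply, hu, hu']
      abel
    · intro r u hu
      rw [map_smul, map_smul, LinearMap.smul_apply, hu, smul_neg]
    · intro j y hy
      have h1 := gr_comm_mem i j x y hx hy
      rw [grB_apply i j x y hx hy, grB_apply j i y x hy hx, ← commutatorElement_inv x y,
        add_comm j i, grc_inv _ _ h1, neg_neg]

theorem gr_self (u : grL K) : grB u u = 0 := by
  refine gr_ind' (P := fun u => grB u u = 0) ?_ ?_ ?_ ?_ u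
  · rw [map_zero]
  · intro u v hu hv
    rw [map_add, map_add, LinearMap.add_apply, LinearMap.add_apply, hu, hv, gr_skew v u]
    abel
  · intro r u hu
    rw [map_smul, map_smul, LinearMap.smul_apply, hu, smul_zero, smul_zero]
  · intro i x hx
    rw [grB_apply i i x x hx hx, commutatorElement_self, grc_one]

theorem gr_jac (u v w : grL K) : grB (grB u v) w + grB (grB v w) u + grB (grB w u) v = 0 := by
  refine gr_ind' (P := fun u => grB (grB u v) w + grB (grB v w) u + grB (grB w u) v = 0)
    ?_ ?_ ?_ ?_ u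
  · simp
  · intro a b ha hb
    have h : grB (grB (a + b) v) w + grB (grB v w) (a + b) + grB (grB w (a + b)) v =
        (grB (grB a v) w + grB (grB v w) a + grB (grB w a) v) +
        (grB (grB b v) w + grB (grB v w) b + grB (grB w b) v) := by
      simp only [map_add, LinearMap.add_apply]
      abel
    rw [h, ha, hb, add_zero]
  · intro r a ha
    have h : grB (grB (r • a) v) w + grB (grB v w) (r • a) + grB (grB w (r • a)) v =
        r • (grB (grB a v) w + grB (grB v w) a + grB (grB w a) v) := by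
      simp only [map_smul, LinearMap.smul_apply, smul_add]
    rw [h, ha, smul_zero]
  intro i x hx
  refine gr_ind' (P := fun v => grB (grB (grc i x) v) w + grB (grB v w) (grc i x) +
    grB (grB w (grc i x)) v = 0) ?_ ?_ ?_ ?_ v
  · simp
  · intro a b ha hb
    have h : grB (grB (grc i x) (a + b)) w + grB (grB (a + b) w) (grc i x) +
        grB (grB w (grc i x)) (a + b) =
        (grB (grB (grc i x) a) w + grB (grB a w) (grc i x) + grB (grB w (grc i x)) a) +
        (grB (grB (grc i x) b) w + grB (grB b w) (grc i x) + grB (grB w (grc i x)) b) := by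
      simp only [map_add, LinearMap.add_apply]
      abel
    rw [h, ha, hb, add_zero]
  · intro r a ha
    have h : grB (grB (grc i x) (r • a)) w + grB (grB (r • a) w) (grc i x) +
        grB (grB w (grc i x)) (r • a) =
        r • (grB (grB (grc i x) a) w + grB (grB a w) (grc i x) + grB (grB w (grc i x)) a) := by
      simp only [map_smul, LinearMap.smul_apply, smul_add]
    rw [h, ha, smul_zero]
  intro j y hy
  refine gr_ind' (P := fun w => grB (grB (grc i x) (grc j y)) w + grB (grB (grc j y) w) (grc i x) +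
    grB (grB w (grc i x)) (grc j y) = 0) ?_ ?_ ?_ ?_ w
  · simp
  · intro a b ha hb
    have h : grB (grB (grc i x) (grc j y)) (a + b) + grB (grB (grc j y) (a + b)) (grc i x) +
        grB (grB (a + b) (grc i x)) (grc j y) =
        (grB (grB (grc i x) (grc j y)) a + grB (grB (grc j y) a) (grc i x) +
        grB (grB a (grc i x)) (grc j y)) +
        (grB (grB (grc i x) (grc j y)) b + grB (grB (grc j y) b) (grc i x) +
        grB (grB b (grc i x)) (grc j y)) := by
      simp only [map_add, LinearMap.add_apply]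
      abel
    rw [h, ha, hb, add_zero]
  · intro r a ha
    have h : grB (grB (grc i x) (grc j y)) (r • a) + grB (grB (grc j y) (r • a)) (grc i x) +
        grB (grB (r • a) (grc i x)) (grc j y) =
        r • (grB (grB (grc i x) (grc j y)) a + grB (grB (grc j y) a) (grc i x) +
        grB (grB a (grc i x)) (grc j y)) := by
      simp only [map_smul, LinearMap.smul_apply, smul_add]
    rw [h, ha, smul_zero]
  intro l z hz
  have hxy := gr_comm_mem i j x y hx hy
  have hyz := gr_comm_mem j l y z hy hz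
  have hzx := gr_comm_mem l i z x hz hx
  have hz' := gr_conj_mem l y z hz
  have hx' := gr_conj_mem i z x hx
  have hy' := gr_conj_mem j x y hy
  rw [grB_apply i j x y hx hy, grB_apply j l y z hy hz, grB_apply l i z x hz hx,
    ← grc_conj l y z hz, ← grc_conj i z x hx, ← grc_conj j x y hy,
    grB_apply _ _ _ _ hxy hz', grB_apply _ _ _ _ hyz hx', grB_apply _ _ _ _ hzx hy']
  have e1 : j + l + i = i + j + l := by ring
  have e2 : l + i + j = i + j + l := by ring
  have m1 := gr_comm_mem _ _ _ _ hxy hz'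
  have m2 := gr_comm_mem _ _ _ _ hyz hx'
  have m3 := gr_comm_mem _ _ _ _ hzx hy'
  rw [e1] at m2 ⊢
  rw [e2] at m3 ⊢
  rw [← grc_mul _ _ _ m1 m2, ← grc_mul _ _ _ ((gm K _).mul_mem m1 m2) m3,
    commutatorElement_commutatorElement_conj_mul, grc_one]

/-- the Lie ring -/
noncomputable instance grLie (K : Type) [Group K] : LieRing (grL K) where
  bracket u v := grB u v
  add_lie u v w := by
    change grB (u + v) w = grB u w + grB v w
    rw [map_add, LinearMap.add_apply]
  lie_add u v w := by
    change grB u (v + w) = grB u v + grB u w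
    rw [map_add]
  lie_self u := gr_self u
  leibniz_lie u v w := by
    change grB u (grB v w) = grB (grB u v) w + grB v (grB u w)
    have h := gr_jac u v w
    rw [gr_skew u (grB v w), gr_skew v (grB u w), gr_skew u w, map_neg, LinearMap.neg_apply, neg_neg]
    have h2 : grB (grB u v) w + grB (grB w u) v = -grB (grB v w) u := by
      rw [eq_neg_iff_add_eq_zero, ← h]
      abel
    exact h2.symm

noncomputable instance grAlg (K : Type) [Group K] : LieAlgebra (ZMod 3) (grL K) where
  lie_smul r u v := by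
    change grB u (r • v) = r • grB u v
    rw [map_smul]

theorem gr_lie (u v : grL K) : ⁅u, v⁆ = grB u v := rfl

/-- classes of elements outside the next term are not zero -/
theorem gr_ne (hK : ∀ i, ∀ x ∈ gm K i, x ^ 3 ∈ gm K (i + 1)) (i : ℕ) (x : K) (hx : x ∈ gm K i)
    (h : grc i x = 0) : x ∈ gm K (i + 1) := by
  haveI := comm_normal (K := K) (i + 1)
  have hcm0 : ∀ (i : ℕ) (a b : K), a ∈ gm K i → b ∈ gm K i → ⁅a, b⁆ ∈ gm K (i + 1) := by
    intro i a b ha hb
    rcases Nat.eq_zero_or_pos i with hi | hi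
    · rw [hi]; exact gr_top _
    · exact comm_le (i + 1) (i + i) (by omega) (gr_comm_mem i i a b ha hb)
  have hcm : ∀ a b : gm K i, ⁅(a : K), (b : K)⁆ ∈ gm K (i + 1) :=
    fun a b => hcm0 i a b a.2 b.2
  have hcomm : ∀ a b : gm K i ⧸ (gm K (i + 1)).subgroupOf (gm K i), a * b = b * a := by
    intro a b
    induction a using QuotientGroup.induction_on with
    | H a =>
      induction b using QuotientGroup.induction_on with
      | H b =>
        rw [← QuotientGroup.mk_mul, ← QuotientGroup.mk_mul, QuotientGroup.eq,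
          Subgroup.mem_subgroupOf]
        have h1 : ((((a * b)⁻¹ * (b * a) : gm K i)) : K) = ⁅((b⁻¹ : gm K i) : K), ((a⁻¹ : gm K i) : K)⁆ := by
          rw [commutatorElement_def]
          push_cast
          group
        rw [h1]
        exact hcm _ _
  letI : CommGroup (gm K i ⧸ (gm K (i + 1)).subgroupOf (gm K i)) :=
    { (inferInstance : Group (gm K i ⧸ (gm K (i + 1)).subgroupOf (gm K i))) with
      mul_comm := hcomm }
  have h3 : ∀ a : Additive (gm K i ⧸ (gm K (i + 1)).subgroupOf (gm K i)), 3 • a = 0 := by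
    intro a
    obtain ⟨b, rfl⟩ := Additive.ofMul.surjective a
    rw [← ofMul_pow, ofMul_eq_zero]
    induction b using QuotientGroup.induction_on with
    | H b =>
      rw [← QuotientGroup.mk_pow, QuotientGroup.eq_one_iff, Subgroup.mem_subgroupOf]
      exact hK i b b.2
  letI : Module (ZMod 3) (Additive (gm K i ⧸ (gm K (i + 1)).subgroupOf (gm K i))) :=
    AddCommGroup.zmodModule h3
  classical
  obtain ⟨φ, hφ⟩ := gr_lift (K := K) (M := Additive (gm K i ⧸ (gm K (i + 1)).subgroupOf (gm K i)))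
    (fun j y => if hj : j = i ∧ y ∈ gm K i then
      Additive.ofMul (QuotientGroup.mk (⟨y, hj.2⟩ : gm K i)) else 0)
    (by
      intro j y y' hy hy'
      by_cases hj : j = i
      · subst hj
        rw [dif_pos ⟨rfl, (gm K j).mul_mem hy hy'⟩, dif_pos ⟨rfl, hy⟩, dif_pos ⟨rfl, hy'⟩,
          ← ofMul_mul, ← QuotientGroup.mk_mul]
        rfl
      · rw [dif_neg fun h => hj h.1, dif_neg fun h => hj h.1, dif_neg fun h => hj h.1, add_zero])
    (by
      intro j y hy
      by_cases hj : j = i
      · subst hj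
        rw [dif_pos ⟨rfl, comm_le j (j + 1) (Nat.le_succ j) hy⟩, ofMul_eq_zero,
          QuotientGroup.eq_one_iff, Subgroup.mem_subgroupOf]
        exact hy
      · rw [dif_neg fun h => hj h.1])
    (by
      intro j y hy
      refine dif_neg fun h => hy ?_
      rw [h.1]
      exact h.2)
  have h4 := hφ i x
  rw [h, map_zero, dif_pos ⟨rfl, hx⟩] at h4
  have h5 := (ofMul_eq_zero.1 h4.symm)
  rw [QuotientGroup.eq_one_iff, Subgroup.mem_subgroupOf] at h5
  exact h5

theorem gr_map (f : K →* K) : ∃ F : grL K →ₗ[ZMod 3] grL K, (∀ x y, F ⁅x, y⁆ = ⁅F x, F y⁆) ∧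
    ∀ i x, x ∈ gm K i → F (grc i x) = grc i (f x) := by
  classical
  obtain ⟨F, hF⟩ := gr_lift (K := K) (M := grL K) (fun i x => if x ∈ gm K i then grc i (f x) else 0)
    (by
      intro i x y hx hy
      rw [if_pos ((gm K i).mul_mem hx hy), if_pos hx, if_pos hy, map_mul,
        grc_mul _ _ _ (comm_map' f i x hx) (comm_map' f i y hy)])
    (by
      intro i x hx
      rw [if_pos (comm_le i (i + 1) (Nat.le_succ i) hx)]
      exact grc_zero _ _ (comm_map' f (i + 1) x hx))
    (by
      intro i x hx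
      rw [if_neg hx])
  have hF' : ∀ i x, x ∈ gm K i → F (grc i x) = grc i (f x) := by
    intro i x hx
    rw [hF, if_pos hx]
  refine ⟨F, ?_, hF'⟩
  intro u v
  rw [gr_lie, gr_lie]
  refine gr_ind' (P := fun u => F (grB u v) = grB (F u) (F v)) ?_ ?_ ?_ ?_ u
  · simp
  · intro a b ha hb
    rw [map_add, LinearMap.add_apply, map_add, ha, hb, map_add, map_add, LinearMap.add_apply]
  · intro r a ha
    rw [map_smul, LinearMap.smul_apply, map_smul, ha, map_smul, map_smul, LinearMap.smul_apply]
  intro i x hx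
  refine gr_ind' (P := fun v => F (grB (grc i x) v) = grB (F (grc i x)) (F v)) ?_ ?_ ?_ ?_ v
  · simp
  · intro a b ha hb
    rw [map_add, map_add, ha, hb, map_add, map_add]
  · intro r a ha
    rw [map_smul, map_smul, ha, map_smul, map_smul]
  intro j y hy
  rw [grB_apply i j x y hx hy, hF' _ _ (gr_comm_mem i j x y hx hy), hF' _ _ hx, hF' _ _ hy,
    grB_apply i j _ _ (comm_map' f i x hx) (comm_map' f j y hy), map_commutatorElement]

theorem gr_span : Submodule.span (ZMod 3) {l : grL K | ∃ i x, x ∈ gm K i ∧ l = grc i x} = ⊤ := by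
  rw [eq_top_iff]
  intro u _
  refine gr_ind' (P := fun u => u ∈ Submodule.span (ZMod 3)
    {l : grL K | ∃ i x, x ∈ gm K i ∧ l = grc i x}) ?_ ?_ ?_ ?_ u
  · exact Submodule.zero_mem _
  · intro a b ha hb
    exact Submodule.add_mem _ ha hb
  · intro r a ha
    exact Submodule.smul_mem _ r ha
  · intro i x hx
    exact Submodule.subset_span ⟨i, x, hx, rfl⟩

end

theorem st_GR : ST_GR := by
  intro K _ hK
  exact ⟨grL K, grLie K, grAlg K, ⟨{
    cl := grc
    add := grc_mul
    zero := fun i x hx => ⟨gr_ne hK i x hx, grc_zero i x⟩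
    lie := fun i j x y hx hy => grB_apply i j x y hx hy
    span := gr_span
    map := gr_map }⟩⟩

end Pool.Agent.Helper74.CA
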